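import Pool.Agent.IDX.Fin

/-! There is a countable 3-uniform hypergraph of positive independence density such that no finite
3-uniform hypergraph has the same independence density (the negated form of Q1, with `k = 3`). -/

open Finset

namespace Pool.Agent.Results.MP_90b0e7_co.ThreeUniformDisproof

open Pool.Agent.UD

/-- `E` is the set of edges of a 3-uniform hypergraph on the vertex set `ℕ`; `d > 0` is its
independence density; no finite 3-uniform hypergraph has independence density `d`. -/
theorem result : ∃ (E : Set (Finset ℕ)) (d : ℝ), (∀ e ∈ E, e.card = 3) ∧ IsDensity E d ∧ 0 < d ∧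
    ¬ FinUniform 3 d :=
  Pool.Agent.IDX.main_result

end Pool.Agent.Results.MP_90b0e7_co.ThreeUniformDisproof
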