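import Pool.Agent.MP_90b0e7_co.UdMain

/-! Every positive independence density of a countable hypergraph with bounded edges is the
independence density of a finite `K`-uniform hypergraph for every large `K`, with an explicit
sufficient condition on `K` in terms of the binary expansion of the density. -/

open Finset

namespace Pool.Agent.Results.MP_90b0e7_co.UniformityRaising

open Pool.Agent.UD

theorem result {V : Type} [Countable V] (E : Set (Finset V)) (b : ℕ)
    (hE : ∀ e ∈ E, e.card ≤ b) (δ : ℝ) (hδ : IsDensity E δ) (h0 : 0 < δ) :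
    (∃ K0 : ℕ, ∀ K ≥ K0, FinUniform K δ) ∧
    (∃ c m : ℕ, δ = c / 2 ^ m) ∧
    ∀ c m : ℕ, δ = c / 2 ^ m →
      (∀ j k : ℕ, 1 ≤ k → 1 / 2 ^ (j + 1) ≤ 1 - δ →
        (Nat.digits 2 (c % 2 ^ (m - (2 * k + j)))).sum ≤ (2 * k - 1).choose k →
        FinUniform (k + j + 1) δ) ∧
      (∀ i k r : ℕ, 1 ≤ k → 1 ≤ r → 0 < 1 - 2 ^ i * (1 - δ) →
        2 ^ (r - 1) * (1 - 2 ^ i * (1 - δ)) ≤ ∑ a ∈ Finset.range k, ((r - 1).choose a : ℝ) →
        (Nat.digits 2 (c % 2 ^ (m - (i + r)))).sum ≤ (r - 1).choose k →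
        FinUniform (k + i + 1) δ) := by
  classical
  have hdy : ∃ c m : ℕ, δ = c / 2 ^ m := by
    rw [isDensity_unique E hδ]
    exact idens_dyadic b E hE
  have hle : δ ≤ 1 := by
    rw [isDensity_unique E hδ]
    exact (idens_le E ∅).trans (dens_le_one _ _)
  have hunif : ∀ c m : ℕ, δ = c / 2 ^ m → ∀ j k : ℕ, 1 ≤ k → 1 / 2 ^ (j + 1) ≤ 1 - δ →
      (Nat.digits 2 (c % 2 ^ (m - (2 * k + j)))).sum ≤ (2 * k - 1).choose k →
      FinUniform (k + j + 1) δ := by
    rintro c m rfl j k hk h1 ho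
    exact (reach_unif j k c m hk h0 h1 ho).finUniform
  refine ⟨?_, hdy, fun c m hcm => ⟨hunif c m hcm, ?_⟩⟩
  · rcases hle.eq_or_lt with h1 | h1
    · exact ⟨0, fun K _ => h1 ▸ finUniform_one K⟩
    · obtain ⟨c, m, hcm⟩ := hdy
      obtain ⟨j, hj⟩ : ∃ j : ℕ, (1 : ℝ) / 2 ^ (j + 1) ≤ 1 - δ := by
        obtain ⟨n, hn⟩ := exists_pow_lt_of_lt_one (show 0 < 1 - δ by linarith)
          (show (1 / 2 : ℝ) < 1 by norm_num)
        refine ⟨n, ?_⟩
        have h2 : (1 : ℝ) / 2 ^ (n + 1) ≤ (1 / 2) ^ n := by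
          rw [one_div_pow]
          apply one_div_le_one_div_of_le (by positivity)
          exact pow_le_pow_right₀ (by norm_num) (by omega)
        linarith
      refine ⟨ones c + 1 + j + 1, fun K hK => ?_⟩
      obtain ⟨k, hk⟩ : ∃ k, K = k + j + 1 := ⟨K - j - 1, by omega⟩
      subst hk
      refine hunif c m hcm j k (by omega) hj ?_
      exact (ones_mod_le _ c).trans (choose_unbounded (ones c) k (by omega))
  · subst hcm
    intro i k r hk hr hpos hB ho
    have h := (reach_add i k r c m hk hr hpos hle (by push_cast; exact hB) ho).finUniform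
    rwa [show k + 1 + i = k + i + 1 by ring] at h

end Pool.Agent.Results.MP_90b0e7_co.UniformityRaising
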